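import Pool.Agent.Y993.HP.Stm

/-!
# HP-CUT: cutting a long chain
-/

set_option autoImplicit false

namespace Pool.Agent.Y495.HP

open Finset Pool.Agent.Y993.HP

variable {d n N : ℕ}

lemma IsCh.mono {u : Lab d n N} {C C' : Finset (Pt d n)} (h : IsCh u C) (hC : C' ⊆ C) :
    IsCh u C' := fun p hp q hq hpq => h p (hC hp) q (hC hq) hpq

/-- increasing enumeration of a chain -/
lemma enum (i0 : Fin d) {u : Lab d n N} {R : Finset (Pt d n)} (hR : IsCh u R) :
    ∃ q : Fin R.card → Pt d n, (∀ k, q k ∈ R) ∧ (∀ p ∈ R, ∃ k, q k = p) ∧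
      ∀ k k', k < k' → ∀ i, u (i, q k i) < u (i, q k' i) := by
  classical
  have hinj : Set.InjOn (fun p : Pt d n => u (i0, p i0)) R := by
    intro p hp q hq h
    by_contra hne
    rcases hR p hp q hq hne with h1 | h1
    · exact (h1 i0).ne h
    · exact (h1 i0).ne' h
  have hV : (R.image (fun p => u (i0, p i0))).card = R.card := Finset.card_image_of_injOn hinj
  have hex : ∀ k : Fin R.card, ∃ p ∈ R, u (i0, p i0) =
      (R.image (fun p => u (i0, p i0))).orderEmbOfFin hV k := by
    intro k
    have h1 := Finset.orderEmbOfFin_mem (R.image (fun p => u (i0, p i0))) hV k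
    rw [Finset.mem_image] at h1
    exact h1
  choose q hq1 hq2 using hex
  refine ⟨q, hq1, ?_, ?_⟩
  · intro p hp
    have h1 : u (i0, p i0) ∈ Set.range ((R.image (fun p => u (i0, p i0))).orderEmbOfFin hV) := by
      rw [Finset.range_orderEmbOfFin]
      exact Finset.mem_coe.2 (Finset.mem_image_of_mem (fun p : Pt d n => u (i0, p i0)) hp)
    obtain ⟨k, hk⟩ := h1
    refine ⟨k, hinj (hq1 k) hp ?_⟩
    show u (i0, q k i0) = u (i0, p i0)
    rw [hq2, hk]
  · intro k k' hkk i
    have h1 : u (i0, q k i0) < u (i0, q k' i0) := by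
      rw [hq2, hq2]
      exact (OrderEmbedding.lt_iff_lt _).2 hkk
    have hne : q k ≠ q k' := by
      intro h
      rw [h] at h1
      exact lt_irrefl _ h1
    rcases hR _ (hq1 k) _ (hq1 k') hne with h2 | h2
    · exact h2 i
    · exact absurd (h2 i0) (not_lt.2 h1.le)

lemma le_lg {u : Lab d n N} {X C : Finset (Pt d n)} (hC : C ⊆ X) (h : IsCh u C) :
    C.card ≤ lg u X := by
  classical
  unfold lg
  exact Finset.le_sup (f := Finset.card) (Finset.mem_filter.2 ⟨Finset.mem_powerset.2 hC, h⟩)

theorem cut : S_CUT := by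
  classical
  intro d n N G L t b H A cl u hd hcl ht htL hC
  obtain ⟨C, hCA, hCH, hCu⟩ := hC
  have hL : 1 ≤ L := ht.trans htL
  let i0 : Fin d := ⟨0, hd⟩
  let c : Fin d → Pt d n → Fin G := fun i p => cl (u (i, p i))
  let U : Fin d → Finset (Fin G) := fun i =>
    Finset.univ.filter (fun g => t < (C.filter (fun p => c i p = g)).card)
  let Bad : Fin d → Finset (Pt d n) := fun i => C.filter (fun p => c i p ∈ U i)
  have hU : ∀ i, (U i).card * t ≤ H := by
    intro i
    have h1 : (Bad i).card = ∑ g ∈ U i, ((Bad i).filter (fun p => c i p = g)).card :=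
      Finset.card_eq_sum_card_fiberwise (fun p hp => (Finset.mem_filter.1 hp).2)
    have h2 : ∀ g ∈ U i, t ≤ ((Bad i).filter (fun p => c i p = g)).card := by
      intro g hg
      have h3 : (Bad i).filter (fun p => c i p = g) = C.filter (fun p => c i p = g) := by
        ext p
        simp only [Finset.mem_filter, Bad]
        constructor
        · rintro ⟨⟨h4, h5⟩, h6⟩
          exact ⟨h4, h6⟩
        · rintro ⟨h4, h6⟩
          exact ⟨⟨h4, by rw [h6]; exact hg⟩, h6⟩
      rw [h3]
      exact (Finset.mem_filter.1 hg).2.le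
    calc (U i).card * t = ∑ g ∈ U i, t := by rw [Finset.sum_const, smul_eq_mul]
      _ ≤ ∑ g ∈ U i, ((Bad i).filter (fun p => c i p = g)).card := Finset.sum_le_sum h2
      _ = (Bad i).card := h1.symm
      _ ≤ C.card := Finset.card_le_card (Finset.filter_subset _ _)
      _ = H := hCH
  by_cases hb : ∃ i, b ≤ (Bad i).card
  · left
    obtain ⟨i, hi⟩ := hb
    obtain ⟨C', hC', hcard⟩ := Finset.exists_subset_card_eq hi
    refine ⟨i, U i, hU i, C', ?_, hcard, ?_, ?_⟩
    · exact (hC'.trans (Finset.filter_subset _ _)).trans hCA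
    · exact IsCh.mono hCu (hC'.trans (Finset.filter_subset _ _))
    · intro p hp
      exact (Finset.mem_filter.1 (hC' hp)).2
  right
  push Not at hb
  let R : Finset (Pt d n) := C \ Finset.univ.biUnion Bad
  have hRC : R ⊆ C := Finset.sdiff_subset
  have hRu : IsCh u R := IsCh.mono hCu hRC
  have hHR : H ≤ d * b + R.card := by
    have h1 : (Finset.univ.biUnion Bad).card ≤ d * b := by
      calc (Finset.univ.biUnion Bad).card ≤ ∑ i : Fin d, (Bad i).card := Finset.card_biUnion_le
        _ ≤ ∑ i : Fin d, b := Finset.sum_le_sum (fun i _ => (hb i).le)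
        _ = d * b := by rw [Finset.sum_const, Finset.card_univ, Fintype.card_fin, smul_eq_mul]
    have h2 : C.card ≤ (Finset.univ.biUnion Bad).card + R.card := by
      have h3 : C ⊆ Finset.univ.biUnion Bad ∪ R := by
        intro p hp
        by_cases h4 : p ∈ Finset.univ.biUnion Bad
        · exact Finset.mem_union_left _ h4
        · exact Finset.mem_union_right _ (Finset.mem_sdiff.2 ⟨hp, h4⟩)
      exact (Finset.card_le_card h3).trans (Finset.card_union_le _ _)
    omega
  have hcell : ∀ i g, (R.filter (fun p => c i p = g)).card ≤ t := by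
    intro i g
    by_cases hg : g ∈ U i
    · have h1 : R.filter (fun p => c i p = g) = ∅ := by
        rw [Finset.filter_eq_empty_iff]
        intro p hp h2
        apply (Finset.mem_sdiff.1 hp).2
        rw [Finset.mem_biUnion]
        exact ⟨i, Finset.mem_univ _, Finset.mem_filter.2 ⟨hRC hp, by rw [h2]; exact hg⟩⟩
      rw [h1, Finset.card_empty]
      exact Nat.zero_le _
    · have h1 : (C.filter (fun p => c i p = g)).card ≤ t := by
        by_contra h2
        exact hg (Finset.mem_filter.2 ⟨Finset.mem_univ _, not_le.1 h2⟩)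
      exact (Finset.card_le_card (Finset.filter_subset_filter _ hRC)).trans h1
  obtain ⟨q, hq1, hq2, hq3⟩ := enum i0 hRu
  -- monotonicity of the cells
  have hmono : ∀ i (k k' : Fin R.card), k ≤ k' → c i (q k) ≤ c i (q k') := by
    intro i k k' hk
    rcases hk.eq_or_lt with h | h
    · rw [h]
    · exact hcl (hq3 k k' h i).le
  have hqinj : Function.Injective q := by
    intro k k' h
    rcases lt_trichotomy k k' with h1 | h1 | h1
    · exact absurd (hq3 k k' h1 i0) (by rw [h]; exact lt_irrefl _)
    · exact h1
    · exact absurd (hq3 k' k h1 i0) (by rw [h]; exact lt_irrefl _)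
  -- equal cells
  have heq : ∀ i (k k' : Fin R.card), k ≤ k' → c i (q k) = c i (q k') →
      (k' : ℕ) - (k : ℕ) + 1 ≤ t := by
    intro i k k' hk h
    have h1 : (Finset.Icc k k').image q ⊆ R.filter (fun p => c i p = c i (q k)) := by
      intro p hp
      obtain ⟨a, ha, rfl⟩ := Finset.mem_image.1 hp
      rw [Finset.mem_Icc] at ha
      refine Finset.mem_filter.2 ⟨hq1 a, le_antisymm ?_ (hmono i k a ha.1)⟩
      rw [h]
      exact hmono i a k' ha.2
    have h2 := (Finset.card_le_card h1).trans (hcell i _)
    rw [Finset.card_image_of_injective _ hqinj, Fin.card_Icc] at h2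
    have h3 : (k : ℕ) ≤ (k' : ℕ) := hk
    omega
  let r : ℕ := R.card / L
  have hrL : r * L ≤ R.card := Nat.div_mul_le_self _ _
  have hκ : ∀ m : Fin r, ((m : ℕ) + 1) * L - 1 < R.card := by
    intro m
    have h1 : ((m : ℕ) + 1) * L ≤ r * L := Nat.mul_le_mul_right _ m.isLt
    have h2 : 1 ≤ ((m : ℕ) + 1) * L := Nat.mul_pos (Nat.succ_pos _) hL
    omega
  let κ : Fin r → Fin R.card := fun m => ⟨((m : ℕ) + 1) * L - 1, hκ m⟩
  have hκlt : ∀ m m' : Fin r, m < m' → (κ m : ℕ) + L ≤ (κ m' : ℕ) := by
    intro m m' hmm
    show ((m : ℕ) + 1) * L - 1 + L ≤ ((m' : ℕ) + 1) * L - 1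
    have h1 : ((m : ℕ) + 1 + 1) * L ≤ ((m' : ℕ) + 1) * L :=
      Nat.mul_le_mul_right _ (Nat.succ_le_succ hmm)
    have h2 : 1 ≤ ((m : ℕ) + 1) * L := Nat.mul_pos (Nat.succ_pos _) hL
    have h3 : ((m : ℕ) + 1 + 1) * L = ((m : ℕ) + 1) * L + L := by ring
    omega
  have hκinj : ∀ i, Function.Injective (fun m : Fin r => c i (q (κ m))) := by
    have key : ∀ i (m m' : Fin r), m < m' → c i (q (κ m)) ≠ c i (q (κ m')) := by
      intro i m m' hmm h
      have h1 := hκlt m m' hmm
      have h2 := heq i (κ m) (κ m') (by
        show (κ m : ℕ) ≤ (κ m' : ℕ)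
        omega) h
      omega
    intro i m m' h
    rcases lt_trichotomy m m' with h1 | h1 | h1
    · exact absurd h (key i m m' h1)
    · exact h1
    · exact absurd h.symm (key i m' m h1)
  let S : Fin d → Finset (Fin G) := fun i => Finset.univ.image (fun m : Fin r => c i (q (κ m)))
  have hS : ∀ i, (S i).card = r := by
    intro i
    show (Finset.univ.image (fun m : Fin r => c i (q (κ m)))).card = r
    rw [Finset.card_image_of_injective _ (hκinj i), Finset.card_univ, Fintype.card_fin]
  refine ⟨S, r, hS, ?_, ?_⟩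
  · exact hrL.trans ((Finset.card_le_card hRC).trans hCH.le)
  let D : Finset (Pt d n) := R.filter (fun p => ∃ i, c i p ∈ S i)
  have hD : D.card ≤ d * r * t := by
    have h1 : D ⊆ Finset.univ.biUnion (fun i : Fin d =>
        (S i).biUnion (fun g => R.filter (fun p => c i p = g))) := by
      intro p hp
      obtain ⟨hpR, i, hi⟩ := Finset.mem_filter.1 hp
      rw [Finset.mem_biUnion]
      refine ⟨i, Finset.mem_univ _, ?_⟩
      rw [Finset.mem_biUnion]
      exact ⟨_, hi, Finset.mem_filter.2 ⟨hpR, rfl⟩⟩
    calc D.card ≤ _ := Finset.card_le_card h1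
      _ ≤ ∑ i : Fin d, ((S i).biUnion (fun g => R.filter (fun p => c i p = g))).card :=
        Finset.card_biUnion_le
      _ ≤ ∑ i : Fin d, ∑ g ∈ S i, (R.filter (fun p => c i p = g)).card :=
        Finset.sum_le_sum (fun i _ => Finset.card_biUnion_le)
      _ ≤ ∑ i : Fin d, ∑ g ∈ S i, t :=
        Finset.sum_le_sum (fun i _ => Finset.sum_le_sum (fun g _ => hcell i g))
      _ = ∑ i : Fin d, r * t := by
        apply Finset.sum_congr rfl
        intro i _
        rw [Finset.sum_const, hS i, smul_eq_mul]
      _ = d * r * t := by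
        rw [Finset.sum_const, Finset.card_univ, Fintype.card_fin, smul_eq_mul, mul_assoc]
  -- the pieces
  let E : ℕ → Finset (Fin R.card) := fun j =>
    Finset.univ.filter (fun k => q k ∉ D ∧ (k : ℕ) / L = j)
  have hE : ∀ j, (E j).card ≤ zz A (fun i => gap cl (S i) j) L u := by
    intro j
    refine le_min ?_ ?_
    · rw [← Finset.card_image_of_injective (E j) hqinj]
      apply le_lg
      · intro p hp
        obtain ⟨k, hk, rfl⟩ := Finset.mem_image.1 hp
        obtain ⟨_, hkD, hkj⟩ := Finset.mem_filter.1 hk
        have hkS : ∀ i, c i (q k) ∉ S i := by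
          intro i hi
          exact hkD (Finset.mem_filter.2 ⟨hq1 k, i, hi⟩)
        refine Finset.mem_filter.2 ⟨hCA (hRC (hq1 k)), fun i => ?_⟩
        refine Finset.mem_filter.2 ⟨Finset.mem_univ _, hkS i, ?_⟩
        have hkr : (k : ℕ) / L ≤ r := Nat.div_le_div_right k.isLt.le
        -- the elements of `S i` below
        have h1 : (S i).filter (fun s => s < cl (u (i, q k i))) =
            (Finset.univ.filter (fun m : Fin r => (m : ℕ) < j)).image
              (fun m => c i (q (κ m))) := by
          ext g
          rw [Finset.mem_filter, Finset.mem_image, Finset.mem_image]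
          constructor
          · rintro ⟨⟨m, _, rfl⟩, h2⟩
            refine ⟨m, Finset.mem_filter.2 ⟨Finset.mem_univ _, ?_⟩, rfl⟩
            by_contra h3
            rw [not_lt, ← hkj] at h3
            have h4 : k ≤ κ m := by
              show (k : ℕ) ≤ ((m : ℕ) + 1) * L - 1
              have h5 : (k : ℕ) < ((m : ℕ) + 1) * L := by
                rw [← Nat.div_lt_iff_lt_mul hL]
                omega
              omega
            exact absurd h2 (not_lt.2 (hmono i k (κ m) h4))
          · rintro ⟨m, hm, rfl⟩
            have hm' := (Finset.mem_filter.1 hm).2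
            refine ⟨⟨m, Finset.mem_univ _, rfl⟩, ?_⟩
            rw [← hkj] at hm'
            have h4 : κ m ≤ k := by
              show ((m : ℕ) + 1) * L - 1 ≤ (k : ℕ)
              have h5 : ((m : ℕ) + 1) * L ≤ (k : ℕ) := by
                rw [← Nat.le_div_iff_mul_le hL]
                omega
              omega
            refine lt_of_le_of_ne (hmono i (κ m) k h4) ?_
            intro h6
            apply hkS i
            show c i (q k) ∈ Finset.univ.image (fun m : Fin r => c i (q (κ m)))
            rw [Finset.mem_image]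
            exact ⟨m, Finset.mem_univ _, h6⟩
        rw [h1, Finset.card_image_of_injective _ (hκinj i)]
        have h7 : (Finset.univ.filter (fun m : Fin r => (m : ℕ) < j)).card = j := by
          have h8 : (Finset.univ.filter (fun m : Fin r => (m : ℕ) < j)).image
              (fun m : Fin r => (m : ℕ)) = Finset.range j := by
            ext a
            rw [Finset.mem_image, Finset.mem_range]
            constructor
            · rintro ⟨m, hm, rfl⟩
              exact (Finset.mem_filter.1 hm).2
            · intro ha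
              have ha' : a < r := by omega
              exact ⟨⟨a, ha'⟩, Finset.mem_filter.2 ⟨Finset.mem_univ _, ha⟩, rfl⟩
          rw [← Finset.card_image_of_injective _ (Fin.val_injective (n := r)), h8,
            Finset.card_range]
        exact h7
      · apply IsCh.mono hRu
        intro p hp
        obtain ⟨k, _, rfl⟩ := Finset.mem_image.1 hp
        exact hq1 k
    · calc (E j).card = ((E j).image (fun k : Fin R.card => (k : ℕ) % L)).card := by
            rw [Finset.card_image_of_injOn]
            intro k hk k' hk' h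
            have h1 := (Finset.mem_filter.1 (Finset.mem_coe.1 hk)).2.2
            have h2 := (Finset.mem_filter.1 (Finset.mem_coe.1 hk')).2.2
            have h3 : (k : ℕ) % L = (k' : ℕ) % L := h
            apply Fin.ext
            rw [← Nat.div_add_mod (k : ℕ) L, ← Nat.div_add_mod (k' : ℕ) L, h1, h2, h3]
        _ ≤ (Finset.range L).card := by
            apply Finset.card_le_card
            intro a ha
            obtain ⟨k, _, rfl⟩ := Finset.mem_image.1 ha
            exact Finset.mem_range.2 (Nat.mod_lt _ hL)
        _ = L := Finset.card_range L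
  have hRD : R.card ≤ D.card + ∑ j ∈ range (r + 1), (E j).card := by
    have h1 : (R \ D) ⊆ ((range (r + 1)).biUnion E).image q := by
      intro p hp
      obtain ⟨hpR, hpD⟩ := Finset.mem_sdiff.1 hp
      obtain ⟨k, rfl⟩ := hq2 p hpR
      rw [Finset.mem_image]
      refine ⟨k, ?_, rfl⟩
      rw [Finset.mem_biUnion]
      refine ⟨(k : ℕ) / L, ?_, Finset.mem_filter.2 ⟨Finset.mem_univ _, hpD, rfl⟩⟩
      rw [Finset.mem_range]
      exact Nat.lt_succ_of_le (Nat.div_le_div_right k.isLt.le)
    have h2 : (R \ D).card ≤ ∑ j ∈ range (r + 1), (E j).card :=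
      (Finset.card_le_card h1).trans (Finset.card_image_le.trans Finset.card_biUnion_le)
    have h3 : R.card ≤ D.card + (R \ D).card := by
      have h4 : R ⊆ D ∪ (R \ D) := by
        intro p hp
        by_cases h5 : p ∈ D
        · exact Finset.mem_union_left _ h5
        · exact Finset.mem_union_right _ (Finset.mem_sdiff.2 ⟨hp, h5⟩)
      exact (Finset.card_le_card h4).trans (Finset.card_union_le _ _)
    omega
  have hsum : ∑ j ∈ range (r + 1), (E j).card ≤
      ∑ j ∈ range (r + 1), zz A (fun i => gap cl (S i) j) L u :=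
    Finset.sum_le_sum (fun j _ => hE j)
  omega

end Pool.Agent.Y495.HP
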